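import Pool.Agent.V1180.Helm4

set_option autoImplicit false
set_option linter.unusedSectionVars false

/-! The integrated Lagrangian of an exterior Helmholtz field in `R^3` can be positive. -/

open Set Filter Topology MeasureTheory Metric InnerProductSpace Laplacian
open scoped ContDiff

namespace Pool.Agent.Results.MP_871f9b_an.PositiveLagrangian

variable {E : Type} [NormedAddCommGroup E] [InnerProductSpace ℝ E] [FiniteDimensional ℝ E]

/-- `V` is a compact connected region with connected complement, and its boundary is the smooth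
hypersurface `{F = 0}`, where `F` is smooth, `V = {F ≤ 0}` and `∇F ≠ 0` on the boundary. -/
structure SmoothRegion (V : Set E) (F : E → ℝ) : Prop where
  compact : IsCompact V
  connected : IsConnected V
  compl_connected : IsConnected Vᶜ
  smooth : ContDiff ℝ ∞ F
  eq_sublevel : V = {x | F x ≤ 0}
  frontier_eq : frontier V = {x | F x = 0}
  regular : ∀ x ∈ frontier V, fderiv ℝ F x ≠ 0

/-- outgoing radiation condition: `u(x) = e^{ir} r^{-(d-1)/2} (f(x/r) + o(1))` uniformly as
`r = ‖x‖ → ∞`, with a smooth `f`. -/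
def Radiating (u : E → ℂ) : Prop :=
  ∃ f : E → ℂ, ContDiff ℝ ∞ f ∧
    Tendsto (fun x : E => ((‖x‖ ^ (((Module.finrank ℝ E : ℝ) - 1) / 2) : ℝ) : ℂ) *
      Complex.exp (-(‖x‖ * Complex.I)) * u x - f (‖x‖⁻¹ • x)) (Bornology.cobounded E) (𝓝 0)

/-- `u` is a radiating solution of `Δu + u = 0` in the complement of `V`, smooth up to the
boundary (smooth on an open set containing the closure of the complement). -/
structure ExteriorSolution (V : Set E) (u : E → ℂ) : Prop where
  smooth : ∃ O : Set E, IsOpen O ∧ closure Vᶜ ⊆ O ∧ ContDiffOn ℝ ∞ u O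
  helmholtz : ∀ x ∈ Vᶜ, Δ u x + u x = 0
  radiating : Radiating u

/-- `|u|² - |∇u|²`, where `|∇u|² = ∑ |∂_i u|²` over an orthonormal basis -/
noncomputable def density (u : E → ℂ) (x : E) : ℝ :=
  ‖u x‖ ^ 2 - ∑ i, ‖fderiv ℝ u x (stdOrthonormalBasis ℝ E i)‖ ^ 2

/-- the integrated Lagrangian -/
noncomputable def lagrangian [MeasurableSpace E] [BorelSpace E] (V : Set E) (u : E → ℂ) : ℝ :=
  (1 / 2) * ∫ x in Vᶜ, density u x

/-- the Dirichlet data on the boundary are not identically zero -/
def DirichletNonzero (V : Set E) (u : E → ℂ) : Prop := ∃ x ∈ frontier V, u x ≠ 0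

/-- the Neumann data on the boundary are not identically zero (`∇F` is a nonzero normal) -/
def NeumannNonzero (V : Set E) (F : E → ℝ) (u : E → ℂ) : Prop :=
  ∃ x ∈ frontier V, fderiv ℝ u x (gradient F x) ≠ 0

open Pool.Agent.V1180.Helm Pool.Agent.V1180.Tor in
/-- **Answer to Q1: no.**  In dimension `3` there are a compact region `V` (a solid torus) with
smooth boundary, connected, with connected complement, and a radiating solution `u` with nonzero
Dirichlet data and nonzero Neumann data, for which the density is integrable and `L > 0`. -/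
theorem result : ∃ (V : Set (EuclideanSpace ℝ (Fin 3))) (F : EuclideanSpace ℝ (Fin 3) → ℝ)
    (u : EuclideanSpace ℝ (Fin 3) → ℂ), SmoothRegion V F ∧ ExteriorSolution V u ∧
      DirichletNonzero V u ∧ NeumannNonzero V F u ∧ IntegrableOn (density u) Vᶜ ∧
      0 < lagrangian V u := by
  have h3 : Module.finrank ℝ (EuclideanSpace ℝ (Fin 3)) = 3 := by simp
  have hc : (0 : ℝ) < 8 / 25 * volume.real (ball (0 : EuclideanSpace ℝ (Fin 3)) (1 / 8)) := by
    have : 0 < volume.real (ball (0 : EuclideanSpace ℝ (Fin 3)) (1 / 8)) :=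
      ENNReal.toReal_pos (measure_ball_pos _ _ (by norm_num)).ne' measure_ball_lt_top.ne
    positivity
  obtain ⟨n, hn3, htail⟩ := tail h3 hc
  have hn : (3 : ℝ) ≤ n := by exact_mod_cast hn3
  obtain ⟨A, B, hB, hAB, hp1, hp2, hball, hslab⟩ := torus_ok hn
  have hlt : B < A := by linarith
  set p : EuclideanSpace ℝ (Fin 3) := EuclideanSpace.single 0 2 with hpdef
  have hp : ‖p‖ = 2 := by
    rw [hpdef, PiLp.norm_single]
    norm_num
  have hcomp := T_compact hB hlt
  have hfr := T_frontier hB hlt
  have hp1' : FF A B p < 0 := hp1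
  have hp2' : FF A B (-p) < 0 := hp2
  have hpV : p ∈ T A B := hp1'.le
  have hpV' : -p ∈ T A B := hp2'.le
  have hk := key h3 hp hcomp.isClosed hpV hpV' hn hball hslab htail
  have hcont : Continuous (FF A B) := (FF_contDiff A B).continuous
  have hclo : closure (T A B)ᶜ ⊆ {x | 0 ≤ FF A B x} := by
    refine closure_minimal ?_ (isClosed_le continuous_const hcont)
    intro x hx
    have h : ¬ (FF A B x ≤ 0) := hx
    exact (not_le.1 h).le
  -- the boundary point
  set q : EuclideanSpace ℝ (Fin 3) := EuclideanSpace.single 1 (1 / 8) with hq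
  have hq0 : q 0 = 0 := by simp [hq]
  have hq1 : q 1 = 1 / 8 := by simp [hq]
  have hqn : ‖q‖ = 1 / 8 := by
    rw [hq, PiLp.norm_single]
    norm_num
  have hqF : FF A B q = 0 := by
    unfold FF
    rw [hq0, hq1, hqn, hAB]
    ring
  have hqfr : q ∈ frontier (T A B) := by
    rw [hfr]
    exact hqF
  have hpq : inner ℝ q p = 0 := by
    rw [hq, hpdef, EuclideanSpace.inner_single_right]
    simp
  have hd1 : ‖q - p‖ ^ 2 = (√(257 / 64)) ^ 2 := by
    rw [Real.sq_sqrt (by norm_num), norm_sub_sq_real, hpq, hqn, hp]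
    norm_num
  have hd2 : ‖q - -p‖ ^ 2 = (√(257 / 64)) ^ 2 := by
    rw [Real.sq_sqrt (by norm_num), norm_sub_sq_real, inner_neg_right, hpq, hqn, norm_neg, hp]
    norm_num
  have hr : 0 < √(257 / 64) := Real.sqrt_pos.2 (by norm_num)
  have hg0 : g0 ((√(257 / 64)) ^ 2) ≠ 0 := by
    intro h
    have := inner_g0 hr hr
    rw [h, inner_zero_left, sub_self, Real.cos_zero] at this
    have h2 : 0 < 1 / (√(257 / 64) * √(257 / 64)) := by positivity
    linarith
  have hg1 : (2 : ℝ) • g1 ((√(257 / 64)) ^ 2) ≠ 0 := by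
    intro h
    have := inner_g1 hr hr
    rw [h, inner_zero_left, sub_self, Real.cos_zero, Real.sin_zero, mul_zero, add_zero,
      mul_one] at this
    have h2 : 0 < (1 + √(257 / 64) * √(257 / 64)) / (√(257 / 64) ^ 3 * √(257 / 64) ^ 3) := by
      positivity
    linarith
  have hqp : q ≠ p := by
    intro h
    rw [h, hp] at hqn
    norm_num at hqn
  have hqp' : q ≠ -p := by
    intro h
    rw [h, norm_neg, hp] at hqn
    norm_num at hqn
  have hgrad : gradient (FF A B) q = (-(A * B)) • (EuclideanSpace.single 1 1 : E3) := by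
    refine ext_inner_right ℝ fun v => ?_
    rw [inner_gradient_left, FF_fderiv, hqn, hq0, hq1, real_inner_smul_left]
    have e1 : inner ℝ q v = 1 / 8 * v 1 := by
      rw [hq, EuclideanSpace.inner_single_left]
      simp
    have e2 : inner ℝ (EuclideanSpace.single 1 1 : E3) v = v 1 := by
      rw [EuclideanSpace.inner_single_left]
      simp
    rw [e1, e2, hAB]
    ring
  refine ⟨T A B, FF A B, uu p, ⟨hcomp, T_connected hB hlt, Tc_connected hB hlt,
    FF_contDiff A B, rfl, hfr, ?_⟩, ⟨⟨{p, -p}ᶜ, ?_, ?_, ?_⟩, ?_, ?_⟩, ⟨q, hqfr, ?_⟩,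
    ⟨q, hqfr, ?_⟩, hk.1, ?_⟩
  · intro x hx
    rw [hfr] at hx
    exact FF_regular hB hlt hx
  · exact ((Set.finite_singleton (-p)).insert p).isClosed.isOpen_compl
  · intro x hx
    have h1 : 0 ≤ FF A B x := hclo hx
    simp only [mem_compl_iff, mem_insert_iff, mem_singleton_iff, not_or]
    constructor
    · rintro rfl
      exact absurd hp1 (not_lt.2 h1)
    · rintro rfl
      exact absurd hp2 (not_lt.2 h1)
  · intro x hx
    simp only [mem_compl_iff, mem_insert_iff, mem_singleton_iff, not_or] at hx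
    exact (uu_contDiffAt hx.1 hx.2).contDiffWithinAt
  · intro x hx
    exact uu_helm h3 (fun h => hx (h ▸ hpV)) (fun h => hx (h ▸ hpV'))
  · refine ⟨ff p, ff_contDiff p, ?_⟩
    have := far p hp
    refine this.congr fun x => ?_
    rw [h3]
    norm_num
  · unfold uu
    rw [hd1, hd2, ← two_mul]
    exact mul_ne_zero two_ne_zero hg0
  · rw [hgrad, map_smul, uu_fderiv hqp hqp', hd1, hd2, ← add_smul]
    have e1 : inner ℝ (q - p) (EuclideanSpace.single 1 1 : E3) +
        inner ℝ (q - -p) (EuclideanSpace.single 1 1 : E3) = 1 / 4 := by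
      rw [← inner_add_left, show q - p + (q - -p) = (2 : ℝ) • q by module,
        real_inner_smul_left, EuclideanSpace.inner_single_right, hq1]
      norm_num
    rw [e1]
    refine smul_ne_zero ?_ (smul_ne_zero (by norm_num) hg1)
    have : 0 < A * B := mul_pos (by linarith) hB
    linarith
  · unfold lagrangian
    have := hk.2
    have e1 : ∫ x in (T A B)ᶜ, density (uu p) x =
        ∫ x in (T A B)ᶜ, (‖uu p x‖ ^ 2 - gradSq (uu p) x) := rfl
    rw [e1]
    linarith

end Pool.Agent.Results.MP_871f9b_an.PositiveLagrangian
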